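import Pool.Agent.N931.PN.Stm3
import Pool.Agent.H984R4.NP.ModelLem

/-!
# Spectral weight near the corners and the ends (`S_WSP`)

Project PN (helper931), part by helper862.
-/

set_option autoImplicit false
set_option linter.all false

namespace Pool.Agent.N862.PN.WSP

open H974 H12S H389NS H984N H984P H342P Finset
open Pool.Agent.N116.EW Pool.Agent.N931.PN
open H342L (cdist Curve)

theorem ok_hp : H974.Ok (hp : Edg → ℝ) := fun e => by
  unfold hp
  constructor <;> norm_num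

/-- The corners and the ends are far from each other. -/
theorem far (R : Rect) : ∃ κ δ0 : ℝ, 0 < κ ∧ 0 < δ0 ∧ ∀ δ : ℝ, 0 < δ → δ ≤ δ0 →
    ∀ i j : Fin 6, i ≠ j → κ / δ ≤ ((sd (pts (R.dm δ) i) (pts (R.dm δ) j) : ℤ) : ℝ) := by
  have hA := R.hA
  have hB := R.hB
  have hH := R.hH
  have ht1 : 0 < R.t + R.A := by linarith [R.ht1]
  have ht2 : 0 < R.B - R.t := by linarith [R.ht2]
  obtain ⟨m, hm⟩ : ∃ m, m = min (min R.A (min R.B R.H)) (min (R.t + R.A) (R.B - R.t)) := ⟨_, rfl⟩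
  have hm0 : 0 < m := by
    rw [hm]
    exact lt_min (lt_min hA (lt_min hB hH)) (lt_min ht1 ht2)
  have hmA : m ≤ R.A := by rw [hm]; exact (min_le_left _ _).trans (min_le_left _ _)
  have hmB : m ≤ R.B := by
    rw [hm]; exact (min_le_left _ _).trans ((min_le_right _ _).trans (min_le_left _ _))
  have hmH : m ≤ R.H := by
    rw [hm]; exact (min_le_left _ _).trans ((min_le_right _ _).trans (min_le_right _ _))
  have hm1 : m ≤ R.t + R.A := by rw [hm]; exact (min_le_right _ _).trans (min_le_left _ _)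
  have hm2 : m ≤ R.B - R.t := by rw [hm]; exact (min_le_right _ _).trans (min_le_right _ _)
  refine ⟨m / 2, m / 8, by positivity, by positivity, fun δ hδ hle => ?_⟩
  have hml : 8 ≤ m / δ := by
    rw [le_div_iff₀ hδ]
    linarith
  have hAl : m / δ ≤ R.A / δ := div_le_div_of_nonneg_right hmA hδ.le
  have hBl : m / δ ≤ R.B / δ := div_le_div_of_nonneg_right hmB hδ.le
  have hHl : m / δ ≤ R.H / δ := div_le_div_of_nonneg_right hmH hδ.le
  have h1l : m / δ ≤ R.t / δ + R.A / δ := by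
    rw [← add_div]; exact div_le_div_of_nonneg_right hm1 hδ.le
  have h2l : m / δ ≤ R.B / δ - R.t / δ := by
    rw [← sub_div]; exact div_le_div_of_nonneg_right hm2 hδ.le
  have hk : m / 2 / δ = m / δ / 2 := by field_simp
  have fl : ((⌊-(R.A / δ)⌋ : ℤ) : ℝ) ≤ -(R.A / δ) := Int.floor_le _
  have cB : R.B / δ ≤ ((⌈R.B / δ⌉ : ℤ) : ℝ) := Int.le_ceil _
  have cH : R.H / δ ≤ ((⌈R.H / δ⌉ : ℤ) : ℝ) := Int.le_ceil _
  have ft : ((⌊R.t / δ⌋ : ℤ) : ℝ) ≤ R.t / δ := Int.floor_le _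
  have ft' : R.t / δ < ((⌊R.t / δ⌋ : ℤ) : ℝ) + 1 := Int.lt_floor_add_one _
  obtain ⟨l, hl⟩ : ∃ l : ℤ, l = ⌊-(R.A / δ)⌋ + 1 := ⟨_, rfl⟩
  obtain ⟨r, hr⟩ : ∃ r : ℤ, r = ⌈R.B / δ⌉ - 1 := ⟨_, rfl⟩
  obtain ⟨h, hh⟩ : ∃ h : ℤ, h = ⌈R.H / δ⌉ - 2 := ⟨_, rfl⟩
  obtain ⟨t, ht⟩ : ∃ t : ℤ, t = ⌊R.t / δ⌋ := ⟨_, rfl⟩
  have hD : R.dm δ = ⟨l, r, h, t⟩ := by rw [hl, hr, hh, ht]; rfl
  have e1 : m / δ / 2 ≤ -(l : ℝ) := by rw [hl]; push_cast; linarith
  have e2 : m / δ / 2 ≤ (r : ℝ) := by rw [hr]; push_cast; linarith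
  have e3 : m / δ / 2 ≤ (h : ℝ) := by rw [hh]; push_cast; linarith
  have e4 : m / δ / 2 ≤ (t : ℝ) - l := by rw [hl, ht]; push_cast; linarith
  have e5 : m / δ / 2 ≤ (r : ℝ) - t := by rw [hr, ht]; push_cast; linarith
  obtain ⟨x, hx⟩ : ∃ x : ℝ, x = m / δ / 2 := ⟨_, rfl⟩
  rw [hk, ← hx]
  rw [← hx] at e1 e2 e3 e4 e5
  have hx0 : 0 < x := by rw [hx]; positivity
  -- distances
  have key : ∀ u v : Vtx, (x ≤ (u.1 : ℝ) - v.1 ∨ x ≤ (v.1 : ℝ) - u.1 ∨ x ≤ (u.2 : ℝ) - v.2 ∨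
      x ≤ (v.2 : ℝ) - u.2) → x ≤ ((sd u v : ℤ) : ℝ) := by
    intro u v huv
    unfold sd
    push_cast
    rcases huv with h1 | h1 | h1 | h1
    · exact (h1.trans (le_abs_self _)).trans (le_max_left _ _)
    · refine (h1.trans ?_).trans (le_max_left _ _)
      rw [abs_sub_comm]; exact le_abs_self _
    · exact (h1.trans (le_abs_self _)).trans (le_max_right _ _)
    · refine (h1.trans ?_).trans (le_max_right _ _)
      rw [abs_sub_comm]; exact le_abs_self _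
  rw [hD]
  intro i j hij
  apply key
  fin_cases i <;> fin_cases j <;>
    first
    | exact absurd rfl hij
    | (simp only [pts, Fin.mk_zero, Fin.zero_eta, Fin.mk_one, Fin.reduceFinMk,
        Matrix.cons_val_zero, Matrix.cons_val_one, Matrix.cons_val]
       push_cast
       first
       | (left; linarith)
       | (right; left; linarith)
       | (right; right; left; linarith)
       | (right; right; right; linarith))

theorem main : S_BW → S_BLK → S_SP → S_WSP := by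
  intro hBW hBLK hSP R
  obtain ⟨κ, δ1, hκ, hδ1, hfar⟩ := far R
  obtain ⟨κ', S, δ2, hκ', hS, hδ2, -, hshape⟩ := R.shape
  obtain ⟨C1, c1, hC1, hc1, hsp⟩ := hSP
  obtain ⟨c, hcd⟩ : ∃ c, c = min 1 (2 * c1) := ⟨_, rfl⟩
  have hc0 : 0 < c := by rw [hcd]; exact lt_min one_pos (by positivity)
  have hcle1 : c ≤ 1 := by rw [hcd]; exact min_le_left _ _
  have hcle2 : c ≤ 2 * c1 := by rw [hcd]; exact min_le_right _ _
  obtain ⟨b0, hb0d⟩ : ∃ b0, b0 = min (1 / 2) (κ / 16) := ⟨_, rfl⟩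
  have hb0 : 0 < b0 := by rw [hb0d]; exact lt_min (by norm_num) (by positivity)
  have hb0h : b0 ≤ 1 / 2 := by rw [hb0d]; exact min_le_left _ _
  have hb0k : b0 ≤ κ / 16 := by rw [hb0d]; exact min_le_right _ _
  refine ⟨676 + 4 * C1 * 2 ^ c1 + 4 / b0 ^ c, c, min δ1 δ2, by positivity, hc0,
    lt_min hδ1 hδ2, ?_⟩
  intro δ b hδ hδle hb hb1 hδb f hlp m hm hmb
  have hδ1' : δ ≤ δ1 := hδle.trans (min_le_left _ _)
  have hδ2' : δ ≤ δ2 := hδle.trans (min_le_right _ _)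
  have hok : (R.dm δ).Ok := (hshape δ hδ hδ2').ok
  obtain ⟨B, hB⟩ : ∃ B, B = Sp (R.dm δ) m := ⟨_, rfl⟩
  have hBsub : B ⊆ (R.dm δ).edges := by
    rw [hB]
    exact Finset.filter_subset _ _
  have h1 := hBW (R.dm δ).edges B hBsub (hf R δ f)
  rw [← hB]
  refine h1.trans ?_
  have hbc : 0 ≤ b ^ c := (Real.rpow_pos_of_pos hb c).le
  have h2c : (0 : ℝ) < 2 ^ c1 := Real.rpow_pos_of_pos two_pos _
  have hb0c : 0 < b0 ^ c := Real.rpow_pos_of_pos hb0 c
  by_cases hbb : b0 < b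
  · -- trivial bound
    have h2 : Ex hp (R.dm δ).edges (fun F => (hf R δ f F - hf R δ f (F \ B)) ^ 2) ≤ 4 := by
      refine Ex_le_of_le ok_hp fun F _ => ?_
      have h3 := hlp.2 ⟨R.curve δ F⟩
      have h4 := hlp.2 ⟨R.curve δ (F \ B)⟩
      unfold hf
      rw [abs_le] at h3 h4
      nlinarith [h3.1, h3.2, h4.1, h4.2]
    refine h2.trans ?_
    have h5 : b0 ^ c ≤ b ^ c := Real.rpow_le_rpow hb0.le hbb.le hc0.le
    have h6 : 4 ≤ 4 / b0 ^ c * b ^ c := by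
      rw [div_mul_eq_mul_div, le_div_iff₀ hb0c]
      nlinarith
    have h7 : 0 ≤ (676 + 4 * C1 * 2 ^ c1) * b ^ c := by positivity
    nlinarith
  · push Not at hbb
    have hbh : b ≤ 1 / 2 := hbb.trans hb0h
    have hbk : b ≤ κ / 16 := hbb.trans hb0k
    have hδb1 : δ ≤ b := hδb.trans (pow_le_of_le_one hb.le hb1 (by norm_num))
    have h1b : 1 ≤ b / δ := by rwa [le_div_iff₀ hδ, one_mul]
    obtain ⟨ρ, hρd⟩ : ∃ ρ : ℕ, ρ = ⌈b / δ⌉₊ := ⟨_, rfl⟩
    have hρ1 : b / δ ≤ (ρ : ℝ) := by rw [hρd]; exact Nat.le_ceil _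
    have hρ2 : (ρ : ℝ) ≤ 2 * (b / δ) := by
      rw [hρd]
      have := Nat.ceil_lt_add_one (a := b / δ) (by positivity)
      linarith
    have hρ0 : (1 : ℝ) ≤ ρ := h1b.trans hρ1
    have hρ0' : 1 ≤ ρ := by exact_mod_cast hρ0
    have hm3 : (m : ℝ) ≤ (2 * b ^ 2) * (b / δ) := by
      refine hmb.trans (le_of_eq ?_)
      ring
    have hm0 : (1 : ℝ) ≤ m := by exact_mod_cast hm
    have h2b : 2 * b ^ 2 ≤ 1 := by nlinarith
    have hmρ : (m : ℝ) ≤ ρ := by
      refine hm3.trans (le_trans ?_ hρ1)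
      have : 0 ≤ b / δ := by positivity
      nlinarith
    have hmρ' : m ≤ ρ := by exact_mod_cast hmρ
    -- the corners and the ends
    have hdist : ∀ i j : Fin 6, i ≠ j → 8 * (ρ : ℤ) ≤ sd (pts (R.dm δ) i) (pts (R.dm δ) j) := by
      intro i j hij
      have h3 := hfar δ hδ hδ1' i j hij
      have h4 : (8 : ℝ) * ρ ≤ κ / δ := by
        have h5 : (16 : ℝ) * (b / δ) ≤ κ / δ := by
          rw [mul_div_assoc' , div_le_div_iff_of_pos_right hδ]
          linarith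
        linarith
      have h5 := h4.trans h3
      exact_mod_cast h5
    have h3 := hsp (R.dm δ) hok m ρ hm hmρ' hdist
    have h4 : Ex hp (R.dm δ).edges (fun F => (hf R δ f F - hf R δ f (F \ B)) ^ 2) ≤
        Ex hp (R.dm δ).edges (fun F => (13 * δ * ρ) ^ 2 + 4 * ind (LG (R.dm δ) B ρ F)) := by
      refine Ex_mono ok_hp fun F hF => ?_
      have h5 := hBLK R δ hδ hok f hlp.1 hlp.2 B F hF ρ 0 hρ0'
      rw [Finset.range_zero, Finset.sum_empty, add_zero, pow_zero, one_mul] at h5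
      exact h5
    rw [Ex_add, Ex_const, Ex_mul_left] at h4
    have h5 : Ex hp (R.dm δ).edges (fun F => ind (LG (R.dm δ) B ρ F)) ≤
        C1 * ((m : ℝ) / ρ) ^ c1 := by
      rw [hB]
      exact h3
    have h6 : (m : ℝ) / ρ ≤ 2 * b ^ 2 := by
      rw [div_le_iff₀ (by linarith)]
      refine hm3.trans ?_
      exact mul_le_mul_of_nonneg_left hρ1 (by positivity)
    have h7 : ((m : ℝ) / ρ) ^ c1 ≤ 2 ^ c1 * b ^ c := by
      have h8 : ((m : ℝ) / ρ) ^ c1 ≤ (2 * b ^ 2) ^ c1 :=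
        Real.rpow_le_rpow (by positivity) h6 hc1.le
      refine h8.trans ?_
      rw [Real.mul_rpow (by norm_num) (by positivity)]
      refine mul_le_mul_of_nonneg_left ?_ h2c.le
      have h9 : (b ^ 2) ^ c1 = b ^ (2 * c1) := by
        rw [← Real.rpow_natCast b 2, ← Real.rpow_mul hb.le]
        norm_num
      rw [h9]
      exact Real.rpow_le_rpow_of_exponent_ge hb hb1 hcle2
    have h8 : (13 * δ * ρ) ^ 2 ≤ 676 * b ^ c := by
      have h9 : 13 * δ * ρ ≤ 26 * b := by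
        have h10 : δ * ρ ≤ 2 * b := by
          have := mul_le_mul_of_nonneg_left hρ2 hδ.le
          refine this.trans (le_of_eq ?_)
          field_simp
        have h11 : 13 * δ * ρ = 13 * (δ * ρ) := by ring
        rw [h11]
        linarith
      have h10 : (13 * δ * ρ) ^ 2 ≤ (26 * b) ^ 2 :=
        pow_le_pow_left₀ (by positivity) h9 2
      have h11 : b ^ 2 ≤ b ^ c := by
        rw [← Real.rpow_natCast b 2]
        refine Real.rpow_le_rpow_of_exponent_ge hb hb1 ?_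
        push_cast
        linarith
      have h12 : (26 * b) ^ 2 = 676 * b ^ 2 := by ring
      rw [h12] at h10
      linarith
    refine h4.trans ?_
    have h9 : C1 * ((m : ℝ) / ρ) ^ c1 ≤ C1 * (2 ^ c1 * b ^ c) :=
      mul_le_mul_of_nonneg_left h7 hC1.le
    have h10 : 0 ≤ 4 / b0 ^ c * b ^ c := by positivity
    have h11 : (676 + 4 * C1 * 2 ^ c1 + 4 / b0 ^ c) * b ^ c =
        676 * b ^ c + 4 * (C1 * (2 ^ c1 * b ^ c)) + 4 / b0 ^ c * b ^ c := by ring
    rw [h11]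
    linarith

end Pool.Agent.N862.PN.WSP
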